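import Pool.Agent.Helper47.SR.Goals

/-!
# Packet SR-STAN
-/

namespace Pool.Agent.Helper47.SR

open Finset

theorem STAN_up_inv {n : ℕ} (G : Grp n) (m : ℕ) (S : Finset (Finset (Fin n))) (hS : IsInv G S) :
    IsInv G (up m S) := by
  intro γ hγ B hB
  simp only [up, mem_filter, mem_powersetCard] at hB ⊢
  obtain ⟨⟨-, hc⟩, a, ha, hm⟩ := hB
  refine ⟨⟨subset_univ _, by rw [card_map]; exact hc⟩, γ a, ?_, ?_⟩
  · exact mem_map_of_mem _ ha
  · have h := hS γ hγ _ hm
    have e : mv γ (B.erase a) = (mv γ B).erase (γ a) := Finset.map_erase γ.toEmbedding B a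
    rw [← e]
    exact h

theorem STAN_sum {n m : ℕ} (f : Finset (Fin n) → ℝ) (S : Finset (Finset (Fin n)))
    (hS : S ⊆ lev n m) (hf : ∀ A, A ∉ S → f A = 0) (B : Finset (Fin n)) (hB : #B = m + 1) :
    ∑ a ∈ B, f (B.erase a) = ∑ A ∈ S, (if A ⊆ B then (1 : ℝ) else 0) * f A := by
  have h1 : ∑ a ∈ B, f (B.erase a) = ∑ A ∈ powersetCard m B, f A := by
    refine Finset.sum_bij (fun a _ => B.erase a) ?_ ?_ ?_ ?_
    · intro a ha
      rw [mem_powersetCard]
      exact ⟨erase_subset _ _, by rw [card_erase_of_mem ha, hB]; rfl⟩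
    · intro a ha b hb h
      by_contra hne
      have : b ∈ B.erase a := mem_erase.2 ⟨fun e => hne e.symm, hb⟩
      have h' : B.erase a = B.erase b := h
      rw [h'] at this
      exact absurd this (notMem_erase b B)
    · intro A hA
      rw [mem_powersetCard] at hA
      obtain ⟨a, ha, hab⟩ := (Finset.exists_eq_insert_iff (s := A) (t := B)).2
        ⟨hA.1, by rw [hA.2, hB]⟩
      refine ⟨a, by rw [← hab]; exact mem_insert_self _ _, ?_⟩
      show B.erase a = A
      rw [← hab, erase_insert ha]
    · intro a _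
      rfl
  have h2 : ∑ A ∈ S.filter (fun A => A ⊆ B), f A = ∑ A ∈ powersetCard m B, f A := by
    refine Finset.sum_subset ?_ ?_
    · intro A hA
      rw [mem_filter] at hA
      have := hS hA.1
      rw [mem_powersetCard] at this ⊢
      exact ⟨hA.2, this.2⟩
    · intro A hA hA'
      apply hf
      intro hAS
      apply hA'
      rw [mem_filter]
      exact ⟨hAS, (mem_powersetCard.1 hA).1⟩
  rw [h1, ← h2, Finset.sum_filter]
  refine Finset.sum_congr rfl fun A _ => ?_
  split_ifs <;> simp

theorem goal_STAN (hLA : Goal_LA) (hUINJ : Goal_UINJ) : Goal_STAN := by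
  intro n G m hm S hS hinv
  refine hLA n G S (up m S) (fun B A => if A ⊆ B then 1 else 0) hinv (STAN_up_inv G m S hinv) ?_ ?_
  · intro γ _ A B
    simp only [map_subset_map]
  · intro f _ hf0 hsum A
    by_cases hA : #A = m
    · refine hUINJ n m hm f ?_ A hA
      intro B hB
      by_cases hBu : B ∈ up m S
      · rw [STAN_sum f S hS hf0 B hB]
        exact hsum B hBu
      · apply Finset.sum_eq_zero
        intro a ha
        apply hf0
        intro hmem
        apply hBu
        simp only [up, mem_filter, mem_powersetCard]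
        exact ⟨⟨subset_univ _, hB⟩, a, ha, hmem⟩
    · exact hf0 A (fun h => hA (mem_powersetCard.1 (hS h)).2)

end Pool.Agent.Helper47.SR
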